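import Pool.Agent.H511Z.AxProof

set_option autoImplicit false

namespace Pool.Agent.Results.MP_8db76d_al.SimpleSeress

open Pool.Agent.H511Z.Axial

/-- There is a nine-dimensional primitive axial algebra over `ℚ`, for a finite fusion law with the
Seress property and with a finite set of axes, that is simple and indecomposable and whose
non-annihilation graph is disconnected. -/
theorem result : ∃ (A : Type) (_ : NonUnitalNonAssocCommRing A) (_ : Module ℚ A)
    (_ : IsScalarTower ℚ A A) (_ : SMulCommClass ℚ A A) (L : FusionLaw ℚ) (X : Set A),
    Module.finrank ℚ A = 9 ∧ L.vals.Finite ∧ L.IsSeress ∧ X.Finite ∧ IsPrimitiveAxial L X ∧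
      IsSimpleAlg ℚ A ∧ IsIndecomposable ℚ A ∧ ¬ (nonAnnGraph X).Preconnected :=
  ⟨Alg, inferInstance, inferInstance, inferInstance, inferInstance, law, axes, finrank_alg,
    by simp [law], law_seress, by simp [axes], primAxial, simple, indecomposable, disconnected⟩

end Pool.Agent.Results.MP_8db76d_al.SimpleSeress
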